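import Mathlib
import Pool.Agent.H10.SCC

set_option autoImplicit false

namespace Pool.Agent.Results.MP_c13936_co.Counter

open Finset SimpleGraph Pool.Agent.H10 Pool.Agent.H10.SCC

/-- `G` has a cycle all of whose vertices lie in `X`. -/
def CycIn {n : ℕ} (G : SimpleGraph (Fin n)) (X : Finset (Fin n)) : Prop :=
  ∃ (u : Fin n) (c : G.Walk u u), c.IsCycle ∧ ∀ v ∈ c.support, v ∈ X

/-- Connected, two vertex-disjoint cycles exist, and every edge cut with a cycle on both sides has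
at least `k` edges. -/
def CycConn {n : ℕ} (G : SimpleGraph (Fin n)) (k : ℕ) : Prop :=
  G.Connected ∧ (∃ X, CycIn G X ∧ CycIn G Xᶜ) ∧
  ∀ X, CycIn G X → CycIn G Xᶜ →
    k ≤ {p : Fin n × Fin n | p.1 ∈ X ∧ p.2 ∉ X ∧ G.Adj p.1 p.2}.ncard

/-- `S` is a set of edges of `G` containing no cycle, with at most two edges at each vertex. -/
def PathSystem {n : ℕ} (G : SimpleGraph (Fin n)) (S : Finset (Sym2 (Fin n))) : Prop :=
  (∀ e ∈ S, e ∈ G.edgeSet) ∧
  (∀ (u : Fin n) (c : G.Walk u u), c.IsCycle → ∃ e ∈ c.edges, e ∉ S) ∧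
  ∀ v, (S.filter (fun e => v ∈ e)).card ≤ 2

lemma fin : ∀ b0 < 2, ∀ b1 < 2, ∀ b2 < 2, ∀ b3 < 2, ∀ b4 < 2, ∀ b5 < 2, ∀ b6 < 2, ∀ b7 < 2, ∀ b8 < 2, ∀ b9 < 2, ∀ b10 < 2, ∀ b11 < 2, ∀ b12 < 2, ∀ b13 < 2, 
    6 ≤ (b0 * (1 - b1) + (b0 * (1 - b5) + (b0 * (1 - b13) + 0))) + ((b1 * (1 - b0) + (b1 * (1 - b2) + (b1 * (1 - b10) + 0))) + ((b2 * (1 - b1) + (b2 * (1 - b3) + (b2 * (1 - b7) + 0))) + ((b3 * (1 - b2) + (b3 * (1 - b4) + (b3 * (1 - b12) + 0))) + ((b4 * (1 - b3) + (b4 * (1 - b5) + (b4 * (1 - b9) + 0))) + ((b5 * (1 - b0) + (b5 * (1 - b4) + (b5 * (1 - b6) + 0))) + ((b6 * (1 - b5) + (b6 * (1 - b7) + (b6 * (1 - b11) + 0))) + ((b7 * (1 - b2) + (b7 * (1 - b6) + (b7 * (1 - b8) + 0))) + ((b8 * (1 - b7) + (b8 * (1 - b9) + (b8 * (1 - b13) + 0))) + ((b9 * (1 - b4) + (b9 * (1 - b8) + (b9 * (1 - b10) + 0))) + ((b10 * (1 - b1) + (b10 * (1 - b9) + (b10 * (1 - b11) + 0))) + ((b11 * (1 - b6) + (b11 * (1 - b10) + (b11 * (1 - b12) + 0))) + ((b12 *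 (1 - b3) + (b12 * (1 - b11) + (b12 * (1 - b13) + 0))) + ((b13 * (1 - b0) + (b13 * (1 - b8) + (b13 * (1 - b12) + 0))) + 0))))))))))))) ∨ b0 + (b1 + (b2 + (b3 + (b4 + (b5 + (b6 + (b7 + (b8 + (b9 + (b10 + (b11 + (b12 + (b13 + 0))))))))))))) ≤ 3 ∨ 11 ≤ b0 + (b1 + (b2 + (b3 + (b4 + (b5 + (b6 + (b7 + (b8 + (b9 + (b10 + (b11 + (b12 + (b13 + 0))))))))))))) := by
  have : (all2 fun b0 => all2 fun b1 => all2 fun b2 => all2 fun b3 => all2 fun b4 => all2 fun b5 => all2 fun b6 => all2 fun b7 => all2 fun b8 => all2 fun b9 => all2 fun b10 => all2 fun b11 => all2 fun b12 => all2 fun b13 => 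
    decide (6 ≤ (b0 * (1 - b1) + (b0 * (1 - b5) + (b0 * (1 - b13) + 0))) + ((b1 * (1 - b0) + (b1 * (1 - b2) + (b1 * (1 - b10) + 0))) + ((b2 * (1 - b1) + (b2 * (1 - b3) + (b2 * (1 - b7) + 0))) + ((b3 * (1 - b2) + (b3 * (1 - b4) + (b3 * (1 - b12) + 0))) + ((b4 * (1 - b3) + (b4 * (1 - b5) + (b4 * (1 - b9) + 0))) + ((b5 * (1 - b0) + (b5 * (1 - b4) + (b5 * (1 - b6) + 0))) + ((b6 * (1 - b5) + (b6 * (1 - b7) + (b6 * (1 - b11) + 0))) + ((b7 * (1 - b2) + (b7 * (1 - b6) + (b7 * (1 - b8) + 0))) + ((b8 * (1 - b7) + (b8 * (1 - b9) + (b8 * (1 - b13) + 0))) + ((b9 * (1 - b4) + (b9 * (1 - b8) + (b9 * (1 - b10) + 0))) + ((b10 * (1 - b1) + (b10 * (1 - b9) + (b10 * (1 - b11) + 0))) + ((b11 * (1 - b6) + (b11 * (1 - b10) + (b11 * (1 - b12) + 0))) + ((b12 * (1 - b3) + (b12 * (1 - b11) + (b12 * (1 - b13) + 0))) + ((b13 * (1 - b0) + (b13 * (1 - b8) + (b13 * (1 - b12) + 0))) + 0))))))))))))) ∨ b0 + (b1 + (b2 + (b3 + (b4 + (b5 + (b6 + (b7 + (b8 + (b9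 + (b10 + (b11 + (b12 + (b13 + 0))))))))))))) ≤ 3 ∨ 11 ≤ b0 + (b1 + (b2 + (b3 + (b4 + (b5 + (b6 + (b7 + (b8 + (b9 + (b10 + (b11 + (b12 + (b13 + 0))))))))))))))) = true := by decide +kernel
  simpa only [all2_spec, decide_eq_true_eq] using this

def nb (v : Fin 14) : List (Fin 14) :=
  match v.1 with
  | 0 => [1, 5, 13]
  | 1 => [0, 2, 10]
  | 2 => [1, 3, 7]
  | 3 => [2, 4, 12]
  | 4 => [3, 5, 9]
  | 5 => [0, 4, 6]
  | 6 => [5, 7, 11]
  | 7 => [2, 6, 8]
  | 8 => [7, 9, 13]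
  | 9 => [4, 8, 10]
  | 10 => [1, 9, 11]
  | 11 => [6, 10, 12]
  | 12 => [3, 11, 13]
  | 13 => [0, 8, 12]
  | _ => []

def G : SimpleGraph (Fin 14) where
  Adj v w := w ∈ nb v
  symm := ⟨by
    have : ∀ v : Fin 14, ∀ w ∈ nb v, v ∈ nb w := by decide +kernel
    exact fun v w h => this v w h⟩
  loopless := ⟨by
    have : ∀ v : Fin 14, v ∉ nb v := by decide +kernel
    exact this⟩

instance : DecidableRel G.Adj := fun v w => inferInstanceAs (Decidable (w ∈ nb v))

def L : List (ℕ × ℕ) :=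
  [(0, 8226), (1, 1029), (2, 138), (3, 4116), (4, 552), (5, 81), (6, 2208), (7, 324), (8, 8832), (9, 1296), (10, 2562), (11, 5184), (12, 10248), (13, 4353)]

lemma conn : G.Connected := by
  have h : ∀ p ∈ L, ∀ v : Fin 14, v.1 = p.1 → ∀ w : Fin 14, p.2.testBit w.1 → G.Adj v w := by
    decide +kernel
  have := Conn.conn_of G L (fun p hp v w h1 h2 => h p hp v h1 w h2) Set.univ (2 ^ 14 - 1)
    (by simp only [Set.mem_univ, true_iff]; decide) (by norm_num) 0 trivial 8 (by decide +kernel)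
  exact (induceUnivIso G).connected_iff.1 this

lemma nsum (f : Fin 14 → ℕ) (v : Fin 14) (h : ∀ w, ¬ G.Adj v w → f w = 0) :
    ∑ w, f w = ((nb v).map f).sum := by
  have nd : ∀ v, (nb v).Nodup := by decide +kernel
  rw [← List.sum_toFinset f (nd v)]
  symm
  refine sum_subset (subset_univ _) (fun w _ hw => h w ?_)
  exact fun h' => hw (List.mem_toFinset.2 h')

lemma closed {u : Fin 14} (p : G.Walk u u) (v : Fin 14) :
    ((nb v).map (fun y => p.edges.count s(v, y))).sum % 2 = 0 := by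
  rw [← nsum _ v (fun y h => List.count_eq_zero.2 (fun h' => h (p.adj_of_mem_edges h')))]
  have := par p v
  revert this
  split_ifs <;> omega

lemma big (X : Finset (Fin 14)) (h : CycIn G X) : 3 < X.card := by
  obtain ⟨u, c, hc, hX⟩ := h
  have h1 : c.support.tail.toFinset ⊆ X := fun v hv =>
    hX v (List.mem_of_mem_tail (List.mem_toFinset.1 hv))
  have h2 := card_le_card h1
  rw [List.toFinset_card_of_nodup hc.support_nodup, List.length_tail, Walk.length_support] at h2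
  have h3 := hc.three_le_length
  by_contra h4
  obtain ⟨s, hs⟩ := is3Clique_iff_exists_cycle_length_three.2 ⟨u, c, hc, by omega⟩
  obtain ⟨a, b, d, h5, h6, h7, -⟩ := is3Clique_iff.1 hs
  have : ∀ a b d : Fin 14, G.Adj a b → G.Adj a d → ¬ G.Adj b d := by decide +kernel
  exact this a b d h5 h6 h7

def c1 : G.Walk 0 0 := .cons (show G.Adj 0 1 by decide) (.cons (show G.Adj 1 2 by decide) (.cons (show G.Adj 2 3 by decide) (.cons (show G.Adj 3 4 by decide) (.cons (show G.Adj 4 5 by decide) (.cons (show G.Adj 5 0 by decide) (.nil))))))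

def c2 : G.Walk 6 6 := .cons (show G.Adj 6 7 by decide) (.cons (show G.Adj 7 8 by decide) (.cons (show G.Adj 8 9 by decide) (.cons (show G.Adj 9 10 by decide) (.cons (show G.Adj 10 11 by decide) (.cons (show G.Adj 11 6 by decide) (.nil))))))

lemma cyc : CycConn G 6 := by
  refine ⟨conn, ⟨{0, 1, 2, 3, 4, 5}, ⟨_, c1, ?_, by decide⟩, ⟨_, c2, ?_, by decide⟩⟩, ?_⟩
  · exact (Walk.isCycle_def _).2 ⟨(Walk.isTrail_def _).2 (by decide), by simp [c1], by decide⟩
  · exact (Walk.isCycle_def _).2 ⟨(Walk.isTrail_def _).2 (by decide), by simp [c2], by decide⟩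
  · intro X h1 h2
    have h3 := big X h1
    have h4 := big _ h2
    rw [card_compl, Fintype.card_fin] at h4
    let b : Fin 14 → ℕ := fun v => if v ∈ X then 1 else 0
    have hb : ∀ v, b v < 2 := fun v => by simp only [b]; split_ifs <;> norm_num
    have hl : List.finRange 14 = [0, 1, 2, 3, 4, 5, 6, 7, 8, 9, 10, 11, 12, 13] := by decide
    have e1 : X.card = ∑ v, b v := by simp [b]
    have e2 : {p : Fin 14 × Fin 14 | p.1 ∈ X ∧ p.2 ∉ X ∧ G.Adj p.1 p.2}.ncard =
        ∑ u, ((nb u).map (fun v => b u * (1 - b v))).sum := by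
      rw [Set.ncard_eq_toFinset_card', Set.toFinset_ofPred, card_filter, Fintype.sum_prod_type]
      refine sum_congr rfl (fun u _ => ?_)
      rw [nsum _ u (fun w hw => by simp [hw])]
      refine congrArg List.sum (List.map_congr_left (fun v hv => ?_))
      have : G.Adj u v := hv
      by_cases hu : u ∈ X <;> by_cases hv' : v ∈ X <;> simp [b, hu, hv', this]
    rw [e2, Fin.sum_univ_def, hl]
    rw [Fin.sum_univ_def, hl] at e1
    rcases fin (b 0) (hb _) (b 1) (hb _) (b 2) (hb _) (b 3) (hb _) (b 4) (hb _) (b 5) (hb _) (b 6) (hb _) (b 7) (hb _) (b 8) (hb _) (b 9) (hb _) (b 10) (hb _) (b 11) (hb _) (b 12) (hb _) (b 13) (hb _) with h | h | h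
    · exact h
    · exact absurd (e1.trans_le h) (by omega)
    · exact absurd (h.trans_eq e1.symm) (by omega)

def S : Finset (Sym2 (Fin 14)) := {s(0, 5), s(0, 13), s(1, 10), s(2, 3), s(2, 7)}

lemma path : PathSystem G S := by
  refine ⟨by decide, fun u c hc => ?_, by decide⟩
  by_contra h
  push Not at h
  have h0 : ∀ e, e ∉ S → c.edges.count e = 0 := fun e he =>
    List.count_eq_zero.2 (fun h' => he (h e h'))
  have h1 := List.nodup_iff_count_le_one.1 hc.edges_nodup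
  have key : ∀ e ∈ S, c.edges.count e = 0 := by
    intro e he
    simp only [S, mem_insert, mem_singleton] at he
    rcases he with rfl | rfl | rfl | rfl | rfl
    · have p : (c.edges.count s(5, 0) + (c.edges.count s(5, 4) + (c.edges.count s(5, 6) + 0))) % 2 = 0 := closed c 5
      rw [h0 s(5, 4) (by decide), h0 s(5, 6) (by decide), Sym2.eq_swap] at p
      have := h1 s(0, 5)
      omega
    · have p : (c.edges.count s(13, 0) + (c.edges.count s(13, 8) + (c.edges.count s(13, 12) + 0))) % 2 = 0 := closed c 13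
      rw [h0 s(13, 8) (by decide), h0 s(13, 12) (by decide), Sym2.eq_swap] at p
      have := h1 s(0, 13)
      omega
    · have p : (c.edges.count s(10, 1) + (c.edges.count s(10, 9) + (c.edges.count s(10, 11) + 0))) % 2 = 0 := closed c 10
      rw [h0 s(10, 9) (by decide), h0 s(10, 11) (by decide), Sym2.eq_swap] at p
      have := h1 s(1, 10)
      omega
    · have p : (c.edges.count s(3, 2) + (c.edges.count s(3, 4) + (c.edges.count s(3, 12) + 0))) % 2 = 0 := closed c 3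
      rw [h0 s(3, 4) (by decide), h0 s(3, 12) (by decide), Sym2.eq_swap] at p
      have := h1 s(2, 3)
      omega
    · have p : (c.edges.count s(7, 2) + (c.edges.count s(7, 6) + (c.edges.count s(7, 8) + 0))) % 2 = 0 := closed c 7
      rw [h0 s(7, 6) (by decide), h0 s(7, 8) (by decide), Sym2.eq_swap] at p
      have := h1 s(2, 7)
      omega
  have h2 : 0 < c.edges.length := by
    have := hc.three_le_length
    rw [Walk.length_edges]
    omega
  obtain ⟨e, he⟩ := List.exists_mem_of_length_pos h2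
  exact List.count_eq_zero.1 (key e (h e he)) he

/-- In the Heawood graph five edges forming a path system need not lie on a common cycle. -/
theorem result : ¬ ∀ (n k : ℕ) (G : SimpleGraph (Fin n)), (∀ v, (G.neighborSet v).ncard = 3) →
    CycConn G k → ∀ S : Finset (Sym2 (Fin n)), S.card + 1 = k → PathSystem G S →
    ∃ (u : Fin n) (c : G.Walk u u), c.IsCycle ∧ ∀ e ∈ S, e ∈ c.edges := by
  intro h
  obtain ⟨u, c, hc, hS⟩ := h 14 6 G (by
    intro v
    rw [Set.ncard_eq_toFinset_card']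
    revert v
    decide +kernel) cyc S (by decide) path
  have h1 : ∀ e ∈ S, c.edges.count e = 1 := fun e he =>
    List.count_eq_one_of_mem hc.edges_nodup (hS e he)
  have p0 : (c.edges.count s(0, 1) + (c.edges.count s(0, 5) + (c.edges.count s(0, 13) + 0))) % 2 = 0 := closed c 0
  rw [h1 s(0, 5) (by decide), h1 s(0, 13) (by decide)] at p0
  have p1 : (c.edges.count s(1, 0) + (c.edges.count s(1, 2) + (c.edges.count s(1, 10) + 0))) % 2 = 0 := closed c 1
  rw [h1 s(1, 10) (by decide)] at p1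
  have p2 : (c.edges.count s(2, 1) + (c.edges.count s(2, 3) + (c.edges.count s(2, 7) + 0))) % 2 = 0 := closed c 2
  rw [h1 s(2, 3) (by decide), h1 s(2, 7) (by decide)] at p2
  rw [Sym2.eq_swap] at p0 p2
  omega

end Pool.Agent.Results.MP_c13936_co.Counter
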